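import Mathlib
import Pool.Agent.T2H59.EI.Core

/-!
# No equi-isoclinic tight fusion frame of six subspaces with `d / r = 27 / 7`

Over the real and over the complex numbers there are no `EITFF(d, r, 6)` with `7 d = 27 r`.

Proof. The trace gives `P_1 + ... + P_6 = 14/9` and coherence `1/3`. Put `A = P_1 + P_2 + P_3` and
`B = P_4 + P_5 + P_6 = 14/9 - A`. The kernel `K` of `B` has dimension at least `d - 3 r = 6 r / 7`,
and on it `A = 14/9`. The relations `P_i P_j P_i = P_i / 9` show that on the subspace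
`M = P_1 K + P_2 K + P_3 K`, which is invariant and of dimension `3 dim K`, the operator `A`
satisfies a cubic equation. In the same way `B` satisfies this equation on a subspace `M'` of
dimension `3 dim ker A`. The two equations have no common solution, so that
`36 r / 7 ≤ dim M + dim M' ≤ d = 27 r / 7`, a contradiction.
-/

namespace Pool.Agent.Results.MP_f5e42a_co.NoSixSubspaces

open Module Pool.Agent.T2H59.EI
open scoped InnerProductSpace

/-- There is an equi-isoclinic tight fusion frame `EITFF(d, r, n)` over `𝕜`: `n` subspaces of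
dimension `r` of `𝕜 ^ d`, with orthogonal projections `P i`, such that `‖P i x‖ = α ‖x‖` for all
`i ≠ j` and `x ∈ W j`, for some `α ∈ [0, 1]`, and `∑ i, P i` is a multiple of the identity. -/
def ExistsEITFF (𝕜 : Type) [RCLike 𝕜] (d r n : ℕ) : Prop :=
  ∃ W : Fin n → Submodule 𝕜 (EuclideanSpace 𝕜 (Fin d)),
    (∀ i, finrank 𝕜 (W i) = r) ∧
    (∃ α : ℝ, 0 ≤ α ∧ α ≤ 1 ∧ ∀ i j, i ≠ j → ∀ x ∈ W j, ‖(W i).starProjection x‖ = α * ‖x‖) ∧
    (∃ c : 𝕜, ∑ i, (W i).starProjection = c • ContinuousLinearMap.id 𝕜 _)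

section

variable {𝕜 E : Type} [RCLike 𝕜] [NormedAddCommGroup E] [InnerProductSpace 𝕜 E]
  [FiniteDimensional 𝕜 E]

lemma trace_proj (U : Submodule 𝕜 E) :
    LinearMap.trace 𝕜 E (U.starProjection : E →ₗ[𝕜] E) = (finrank 𝕜 U : 𝕜) := by
  apply LinearMap.IsProj.trace
  constructor
  · intro x
    exact U.starProjection_apply_mem x
  · intro x hx
    exact Submodule.starProjection_eq_self_iff.2 hx

lemma inner_proj_self (U : Submodule 𝕜 E) (x : E) :
    ⟪U.starProjection x, x⟫_𝕜 = ((‖U.starProjection x‖ ^ 2 : ℝ) : 𝕜) := by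
  have h1 : ⟪U.starProjection x, x⟫_𝕜 = ⟪U.starProjection x, U.starProjection x⟫_𝕜 := by
    conv_rhs => rw [Submodule.inner_starProjection_left_eq_right]
    rw [Submodule.inner_starProjection_left_eq_right]
    congr 1
    exact (Submodule.starProjection_eq_self_iff.2 (U.starProjection_apply_mem x)).symm
  rw [h1, inner_self_eq_norm_sq_to_K]
  push_cast
  rfl

lemma proj_pair (U V : Submodule 𝕜 E)
    (h : ∀ x ∈ V, ‖U.starProjection x‖ = 1 / 3 * ‖x‖)
    (x : E) : V.starProjection (U.starProjection (V.starProjection x)) =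
      (1 / 9 : 𝕜) • V.starProjection x := by
  let T : E →ₗ[𝕜] E := (V.starProjection : E →ₗ[𝕜] E) ∘ₗ (U.starProjection : E →ₗ[𝕜] E) ∘ₗ
    (V.starProjection : E →ₗ[𝕜] E) - (1 / 9 : 𝕜) • (V.starProjection : E →ₗ[𝕜] E)
  have hT : ∀ y, T y = V.starProjection (U.starProjection (V.starProjection y)) -
      (1 / 9 : 𝕜) • V.starProjection y := fun y => rfl
  have hsym : T.IsSymmetric := by
    intro y z
    rw [hT, hT, inner_sub_left, inner_sub_right, inner_smul_left, inner_smul_right,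
      Submodule.inner_starProjection_left_eq_right, Submodule.inner_starProjection_left_eq_right,
      Submodule.inner_starProjection_left_eq_right, Submodule.inner_starProjection_left_eq_right]
    simp only [map_div₀, map_one, map_ofNat]
  have hz : T = 0 := by
    rw [← hsym.inner_map_self_eq_zero]
    intro y
    rw [hT, inner_sub_left, inner_smul_left, Submodule.inner_starProjection_left_eq_right,
      inner_proj_self, inner_proj_self, h _ (V.starProjection_apply_mem y)]
    simp only [map_div₀, map_one, map_ofNat]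
    push_cast
    ring
  have := congrArg (fun S : E →ₗ[𝕜] E => S x) hz
  simp only [LinearMap.zero_apply, hT] at this
  exact sub_eq_zero.1 this

lemma mk_pair (U V : Submodule 𝕜 E)
    (h1 : ∀ x ∈ V, ‖U.starProjection x‖ = 1 / 3 * ‖x‖)
    (h2 : ∀ x ∈ U, ‖V.starProjection x‖ = 1 / 3 * ‖x‖) :
    Pair (U.starProjection : E →ₗ[𝕜] E) (V.starProjection : E →ₗ[𝕜] E) where
  pqp := proj_pair V U h2
  qpq := proj_pair U V h1
  npq x := h1 _ (V.starProjection_apply_mem x)
  nqp x := h2 _ (U.starProjection_apply_mem x)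

lemma mk_triple (W : Fin 6 → Submodule 𝕜 E)
    (h : ∀ i j, i ≠ j → ∀ x ∈ W j, ‖(W i).starProjection x‖ = 1 / 3 * ‖x‖) (i j k : Fin 6)
    (hij : i ≠ j) (hik : i ≠ k) (hjk : j ≠ k) :
    Triple ((W i).starProjection : E →ₗ[𝕜] E) ((W j).starProjection : E →ₗ[𝕜] E)
      ((W k).starProjection : E →ₗ[𝕜] E) where
  pp x := Submodule.starProjection_eq_self_iff.2 ((W i).starProjection_apply_mem x)
  qq x := Submodule.starProjection_eq_self_iff.2 ((W j).starProjection_apply_mem x)
  rr x := Submodule.starProjection_eq_self_iff.2 ((W k).starProjection_apply_mem x)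
  pq := mk_pair _ _ (h i j hij) (h j i hij.symm)
  pr := mk_pair _ _ (h i k hik) (h k i hik.symm)
  qr := mk_pair _ _ (h j k hjk) (h k j hjk.symm)

lemma finrank_orth (U V Z : Submodule 𝕜 E) (r : ℕ) (hU : finrank 𝕜 U = r) (hV : finrank 𝕜 V = r)
    (hZ : finrank 𝕜 Z = r) : finrank 𝕜 E ≤ 3 * r + finrank 𝕜 ((U ⊔ V ⊔ Z)ᗮ : Submodule 𝕜 E) := by
  have h1 := Submodule.finrank_add_finrank_orthogonal (U ⊔ V ⊔ Z)
  have h2 := Submodule.finrank_sup_add_finrank_inf_eq (U ⊔ V) Z
  have h3 := Submodule.finrank_sup_add_finrank_inf_eq U V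
  omega

lemma proj_zero {U V : Submodule 𝕜 E} (h : U ≤ V) {x : E} (hx : x ∈ Vᗮ) :
    U.starProjection x = 0 := by
  rw [Submodule.starProjection_apply_eq_zero_iff]
  exact Submodule.orthogonal_le h hx

theorem impossible (W : Fin 6 → Submodule 𝕜 E) (r : ℕ) (hr0 : 0 < r)
    (hr : ∀ i, finrank 𝕜 (W i) = r) (hd : 7 * finrank 𝕜 E = 27 * r)
    (α : ℝ) (hα : 0 ≤ α)
    (hiso : ∀ i j, i ≠ j → ∀ x ∈ W j, ‖(W i).starProjection x‖ = α * ‖x‖) (c : 𝕜)
    (ht : ∑ i, (W i).starProjection = c • ContinuousLinearMap.id 𝕜 E) : False := by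
  have htx : ∀ x, ∑ i, (W i).starProjection x = c • x := by
    intro x
    have := congrArg (fun S : E →L[𝕜] E => S x) ht
    simpa using this
  -- the constant
  have hc : c = 14 / 9 := by
    have h1 : ∑ i, ((W i).starProjection : E →ₗ[𝕜] E) = c • LinearMap.id := by
      ext x
      rw [LinearMap.sum_apply]
      exact htx x
    have h2 := congrArg (LinearMap.trace 𝕜 E) h1
    rw [map_sum, map_smul, LinearMap.trace_id, smul_eq_mul] at h2
    simp only [trace_proj, hr, Finset.sum_const, Finset.card_univ, Fintype.card_fin,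
      nsmul_eq_mul] at h2
    have h3 : (7 : 𝕜) * (finrank 𝕜 E : 𝕜) = 27 * (r : 𝕜) := by exact_mod_cast hd
    have h4 : (finrank 𝕜 E : 𝕜) ≠ 0 := by
      have : finrank 𝕜 E ≠ 0 := by omega
      exact_mod_cast this
    have h5 : (9 * c - 14) * (finrank 𝕜 E : 𝕜) = 0 := by
      push_cast at h2
      linear_combination (-9 : 𝕜) * h2 + (-2 : 𝕜) * h3
    have h6 := (mul_eq_zero.1 h5).resolve_right h4
    have h9 : (9 : 𝕜) ≠ 0 := by norm_num
    field_simp
    linear_combination h6
  subst hc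
  -- the coherence
  have hα3 : α = 1 / 3 := by
    have : (W 0) ≠ ⊥ := by
      intro h
      have := hr 0
      rw [h, finrank_bot] at this
      omega
    obtain ⟨x, hx, hx0⟩ := Submodule.exists_mem_ne_zero_of_ne_bot this
    have h1 := congrArg (fun y => ⟪y, x⟫_𝕜) (htx x)
    simp only [sum_inner, inner_proj_self, inner_smul_left] at h1
    rw [Fin.sum_univ_succ, (Submodule.starProjection_eq_self_iff.2 hx : _)] at h1
    rw [Finset.sum_congr rfl (fun (i : Fin 5) _ => by
      rw [hiso i.succ 0 (Fin.succ_ne_zero i) x hx])] at h1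
    rw [Finset.sum_const, Finset.card_univ, Fintype.card_fin, inner_self_eq_norm_sq_to_K] at h1
    have h2 : ((‖x‖ ^ 2 + 5 * (α * ‖x‖) ^ 2 : ℝ) : 𝕜) = ((14 / 9 * ‖x‖ ^ 2 : ℝ) : 𝕜) := by
      push_cast
      simp only [nsmul_eq_mul, map_div₀, map_ofNat] at h1
      push_cast at h1
      exact h1
    have h3 : ‖x‖ ^ 2 + 5 * (α * ‖x‖) ^ 2 = 14 / 9 * ‖x‖ ^ 2 := by exact_mod_cast h2
    have hn : 0 < ‖x‖ := norm_pos_iff.2 hx0
    have h4 : (α - 1 / 3) * ((α + 1 / 3) * (5 * ‖x‖ ^ 2)) = 0 := by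
      linear_combination h3
    have h5 : (α + 1 / 3) * (5 * ‖x‖ ^ 2) ≠ 0 := by positivity
    have := (mul_eq_zero.1 h4).resolve_right h5
    linarith
  subst hα3
  have T1 := mk_triple W hiso 0 1 2 (by decide) (by decide) (by decide)
  have T2 := mk_triple W hiso 3 4 5 (by decide) (by decide) (by decide)
  have hsum : ∀ x, (W 0).starProjection x + (W 1).starProjection x + (W 2).starProjection x +
      (W 3).starProjection x + (W 4).starProjection x + (W 5).starProjection x =
      (14 / 9 : 𝕜) • x := by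
    intro x
    rw [← htx x]
    simp only [Fin.sum_univ_succ, Finset.univ_eq_empty, Finset.sum_empty]
    have e1 : (Fin.succ 0 : Fin 6) = 1 := rfl
    have e2 : (Fin.succ (Fin.succ 0) : Fin 6) = 2 := rfl
    have e3 : (Fin.succ (Fin.succ (Fin.succ 0)) : Fin 6) = 3 := rfl
    have e4 : (Fin.succ (Fin.succ (Fin.succ (Fin.succ 0))) : Fin 6) = 4 := rfl
    have e5 : (Fin.succ (Fin.succ (Fin.succ (Fin.succ (Fin.succ 0)))) : Fin 6) = 5 := rfl
    rw [e1, e2, e3, e4, e5, add_zero]
    abel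
  set K : Submodule 𝕜 E := (W 3 ⊔ W 4 ⊔ W 5)ᗮ with hKdef
  set K' : Submodule 𝕜 E := (W 0 ⊔ W 1 ⊔ W 2)ᗮ with hK'def
  have f1 := finrank_orth (W 3) (W 4) (W 5) r (hr 3) (hr 4) (hr 5)
  have f2 := finrank_orth (W 0) (W 1) (W 2) r (hr 0) (hr 1) (hr 2)
  rw [← hKdef] at f1
  rw [← hK'def] at f2
  have hK : ∀ x ∈ K, ((W 0).starProjection : E →ₗ[𝕜] E) x + ((W 1).starProjection : E →ₗ[𝕜] E) x +
      ((W 2).starProjection : E →ₗ[𝕜] E) x = (14 / 9 : 𝕜) • x := by
    intro x hx
    have := hsum x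
    rw [proj_zero (le_sup_of_le_left le_sup_left) hx, proj_zero (le_sup_of_le_left le_sup_right) hx,
      proj_zero le_sup_right hx, add_zero, add_zero, add_zero] at this
    exact this
  have hK' : ∀ x ∈ K', ((W 3).starProjection : E →ₗ[𝕜] E) x + ((W 4).starProjection : E →ₗ[𝕜] E) x +
      ((W 5).starProjection : E →ₗ[𝕜] E) x = (14 / 9 : 𝕜) • x := by
    intro x hx
    have := hsum x
    rw [proj_zero (le_sup_of_le_left le_sup_left) hx, proj_zero (le_sup_of_le_left le_sup_right) hx,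
      proj_zero le_sup_right hx, zero_add, zero_add, zero_add] at this
    exact this
  let N : E →ₗ[𝕜] E := ((W 0).starProjection : E →ₗ[𝕜] E) + ((W 1).starProjection : E →ₗ[𝕜] E) +
      ((W 2).starProjection : E →ₗ[𝕜] E) - LinearMap.id
  let N' : E →ₗ[𝕜] E := ((W 3).starProjection : E →ₗ[𝕜] E) + ((W 4).starProjection : E →ₗ[𝕜] E) +
      ((W 5).starProjection : E →ₗ[𝕜] E) - LinearMap.id
  have hN : ∀ v, N v = ((W 0).starProjection : E →ₗ[𝕜] E) v + ((W 1).starProjection : E →ₗ[𝕜] E) v +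
      ((W 2).starProjection : E →ₗ[𝕜] E) v - v := fun v => rfl
  have hN' : ∀ v, N' v = ((W 3).starProjection : E →ₗ[𝕜] E) v +
      ((W 4).starProjection : E →ₗ[𝕜] E) v +
      ((W 5).starProjection : E →ₗ[𝕜] E) v - v := fun v => rfl
  have g1 := T1.finrank_span hK
  have g2 := T2.finrank_span hK'
  have c1 := T1.cubic_span hK N hN
  have c2 := T2.cubic_span hK' N' hN'
  have hNN : ∀ v, N' v = - ((4 / 9 : 𝕜) • v) - N v := by
    intro v
    rw [hN, hN']
    have h0 := hsum v
    have h1 : (W 5).starProjection v = (14 / 9 : 𝕜) • v - ((W 0).starProjection v +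
      (W 1).starProjection v + (W 2).starProjection v +
      (W 3).starProjection v + (W 4).starProjection v) := by rw [← h0]; abel
    have h2 : ((W 5).starProjection : E →ₗ[𝕜] E) v = (14 / 9 : 𝕜) • v -
      (((W 0).starProjection : E →ₗ[𝕜] E) v +
      ((W 1).starProjection : E →ₗ[𝕜] E) v + ((W 2).starProjection : E →ₗ[𝕜] E) v +
      ((W 3).starProjection : E →ₗ[𝕜] E) v + ((W 4).starProjection : E →ₗ[𝕜] E) v) := h1
    rw [h2]
    module
  have hdisj : span3 ((W 0).starProjection : E →ₗ[𝕜] E) ((W 1).starProjection : E →ₗ[𝕜] E)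
      ((W 2).starProjection : E →ₗ[𝕜] E) K ⊓
      span3 ((W 3).starProjection : E →ₗ[𝕜] E) ((W 4).starProjection : E →ₗ[𝕜] E)
      ((W 5).starProjection : E →ₗ[𝕜] E) K' = ⊥ := by
    rw [Submodule.eq_bot_iff]
    rintro v ⟨hv1, hv2⟩
    exact cubic_disjoint N N' hNN v (c1 v hv1) (c2 v hv2)
  have hs := Submodule.finrank_sup_add_finrank_inf_eq
    (span3 ((W 0).starProjection : E →ₗ[𝕜] E) ((W 1).starProjection : E →ₗ[𝕜] E)
      ((W 2).starProjection : E →ₗ[𝕜] E) K)
    (span3 ((W 3).starProjection : E →ₗ[𝕜] E) ((W 4).starProjection : E →ₗ[𝕜] E)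
      ((W 5).starProjection : E →ₗ[𝕜] E) K')
  rw [hdisj, finrank_bot] at hs
  have hle := Submodule.finrank_le
    (span3 ((W 0).starProjection : E →ₗ[𝕜] E) ((W 1).starProjection : E →ₗ[𝕜] E)
      ((W 2).starProjection : E →ₗ[𝕜] E) K ⊔
    span3 ((W 3).starProjection : E →ₗ[𝕜] E) ((W 4).starProjection : E →ₗ[𝕜] E)
      ((W 5).starProjection : E →ₗ[𝕜] E) K')
  omega

end

/-- **Q2, full answer (negative).** For all positive integers `d`, `r` with `d / r = 27 / 7` there is
no `EITFF(d, r, 6)`, neither over the real nor over the complex numbers. -/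
theorem result : ∀ d r : ℕ, 0 < d → 0 < r → 7 * d = 27 * r →
    ¬ ExistsEITFF ℝ d r 6 ∧ ¬ ExistsEITFF ℂ d r 6 := by
  intro d r _ hr h
  constructor
  · rintro ⟨W, hW, ⟨α, hα, _, hiso⟩, c, ht⟩
    exact impossible W r hr hW (by rw [finrank_euclideanSpace_fin]; exact h) α hα hiso c ht
  · rintro ⟨W, hW, ⟨α, hα, _, hiso⟩, c, ht⟩
    exact impossible W r hr hW (by rw [finrank_euclideanSpace_fin]; exact h) α hα hiso c ht

end Pool.Agent.Results.MP_f5e42a_co.NoSixSubspaces
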